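import Pool.Agent.H17Z.Box.Defs

set_option autoImplicit false

namespace Pool.Agent.H17Z.Box

open ContinuousMap

section abstract
variable {X Y Z : Type} [TopologicalSpace X] [TopologicalSpace Y] [TopologicalSpace Z]

lemma EH.refl {νX : X → X} {νY : Y → Y} (f : C(X, Y)) (hf : ∀ x, f (νX x) = νY (f x)) :
    EquivariantlyHomotopic νX νY f f :=
  ⟨ContinuousMap.Homotopy.refl f, fun _ x => hf x⟩

lemma EH.trans {νX : X → X} {νY : Y → Y} {f g h : C(X, Y)}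
    (h1 : EquivariantlyHomotopic νX νY f g) (h2 : EquivariantlyHomotopic νX νY g h) :
    EquivariantlyHomotopic νX νY f h := by
  obtain ⟨H1, e1⟩ := h1
  obtain ⟨H2, e2⟩ := h2
  refine ⟨H1.trans H2, fun t x => ?_⟩
  rw [ContinuousMap.Homotopy.trans_apply, ContinuousMap.Homotopy.trans_apply]
  split_ifs with ht
  · exact e1 _ _
  · exact e2 _ _

lemma EH.symm {νX : X → X} {νY : Y → Y} {f g : C(X, Y)}
    (h1 : EquivariantlyHomotopic νX νY f g) : EquivariantlyHomotopic νX νY g f := by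
  obtain ⟨H1, e1⟩ := h1
  exact ⟨H1.symm, fun t x => e1 _ _⟩

/-- pre- and post-composition with equivariant maps -/
lemma EH.sandwich {W : Type} [TopologicalSpace W] {νW : W → W} {νX : X → X} {νY : Y → Y}
    {νZ : Z → Z} {f g : C(X, Y)}
    (h1 : EquivariantlyHomotopic νX νY f g) (a : C(W, X)) (ha : ∀ w, a (νW w) = νX (a w))
    (b : C(Y, Z)) (hb : ∀ y, b (νY y) = νZ (b y)) :
    EquivariantlyHomotopic νW νZ (b.comp (f.comp a)) (b.comp (g.comp a)) := by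
  obtain ⟨H1, e1⟩ := h1
  refine ⟨⟨⟨fun p => b (H1 (p.1, a p.2)), by fun_prop⟩, ?_, ?_⟩, ?_⟩
  · intro x; simp
  · intro x; simp
  · intro t w
    change b (H1 (t, a (νW w))) = νZ (b (H1 (t, a w)))
    rw [ha, e1, hb]

lemma ZE.symm {νX : X → X} {νY : Y → Y} (h : Z2HomotopyEquivalent νX νY) :
    Z2HomotopyEquivalent νY νX := by
  obtain ⟨f, g, hf, hg, h1, h2⟩ := h
  exact ⟨g, f, hg, hf, h2, h1⟩

lemma ZE.trans {νX : X → X} {νY : Y → Y} {νZ : Z → Z} (h : Z2HomotopyEquivalent νX νY)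
    (h' : Z2HomotopyEquivalent νY νZ) : Z2HomotopyEquivalent νX νZ := by
  obtain ⟨f, g, hf, hg, h1, h2⟩ := h
  obtain ⟨f', g', hf', hg', h1', h2'⟩ := h'
  refine ⟨f'.comp f, g.comp g', fun x => by simp [hf, hf'], fun x => by simp [hg, hg'], ?_, ?_⟩
  · have := EH.sandwich h1' f hf g hg
    exact EH.trans this h1
  · have := EH.sandwich h2 g' hg' f' hf'
    exact EH.trans this h2'

end abstract

section sets
variable {E : Type} [TopologicalSpace E]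

def swapOn (X : Set (E × E)) (hX : ∀ p ∈ X, p.swap ∈ X) (p : X) : X := ⟨p.1.swap, hX _ p.2⟩

/-- `ℤ₂`-homotopy equivalence of two swap invariant sets -/
def ZS (X Y : Set (E × E)) : Prop :=
  ∃ (hX : ∀ p ∈ X, p.swap ∈ X) (hY : ∀ p ∈ Y, p.swap ∈ Y),
    Z2HomotopyEquivalent (swapOn X hX) (swapOn Y hY)

lemma ZS.symm {X Y : Set (E × E)} (h : ZS X Y) : ZS Y X := by
  obtain ⟨hX, hY, h⟩ := h
  exact ⟨hY, hX, ZE.symm h⟩

lemma ZS.trans {X Y Z : Set (E × E)} (h : ZS X Y) (h' : ZS Y Z) : ZS X Z := by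
  obtain ⟨hX, hY, h⟩ := h
  obtain ⟨hY', hZ, h'⟩ := h'
  exact ⟨hX, hZ, ZE.trans h h'⟩

lemma ZS.refl {X : Set (E × E)} (hX : ∀ p ∈ X, p.swap ∈ X) : ZS X X :=
  ⟨hX, hX, ContinuousMap.id _, ContinuousMap.id _, fun _ => rfl, fun _ => rfl,
    EH.refl _ (fun _ => rfl), EH.refl _ (fun _ => rfl)⟩

/-- an equivariant deformation of `X` into a subset `Y` which keeps `Y` inside `Y` -/
lemma ZS.of_deform {X Y : Set (E × E)} (hX : ∀ p ∈ X, p.swap ∈ X) (hY : ∀ p ∈ Y, p.swap ∈ Y)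
    (hYX : Y ⊆ X) (D : unitInterval × (E × E) → E × E) (hD : Continuous D)
    (hDX : ∀ t, ∀ p ∈ X, D (t, p) ∈ X) (hDY : ∀ t, ∀ p ∈ Y, D (t, p) ∈ Y)
    (h0 : ∀ p ∈ X, D (0, p) = p) (h1 : ∀ p ∈ X, D (1, p) ∈ Y)
    (hs : ∀ t p, D (t, p.swap) = (D (t, p)).swap) : ZS X Y := by
  refine ⟨hX, hY, ⟨fun p => ⟨D (1, p.1), h1 _ p.2⟩, by fun_prop⟩,
    ⟨fun p => ⟨p.1, hYX p.2⟩, by fun_prop⟩, fun p => Subtype.ext (hs _ _), fun p => rfl, ?_, ?_⟩
  · apply EH.symm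
    refine ⟨⟨⟨fun q => ⟨D (q.1, q.2.1), hDX _ _ q.2.2⟩, by fun_prop⟩, ?_, ?_⟩, ?_⟩
    · intro p; exact Subtype.ext (h0 _ p.2)
    · intro p; rfl
    · intro t p; exact Subtype.ext (hs _ _)
  · apply EH.symm
    refine ⟨⟨⟨fun q => ⟨D (q.1, q.2.1), hDY _ _ q.2.2⟩, by fun_prop⟩, ?_, ?_⟩, ?_⟩
    · intro p; exact Subtype.ext (h0 _ (hYX p.2))
    · intro p; rfl
    · intro t p; exact Subtype.ext (hs _ _)

end sets

end Pool.Agent.H17Z.Box
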