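import Pool.Agent.H17Z.Box.Graph

set_option autoImplicit false
set_option linter.unusedSectionVars false

namespace Pool.Agent.H17Z.Box

variable {ι : Type} [Fintype ι] [DecidableEq ι]

def star (ι : Type) (a : Fin 3) : VV ι := .inl (a, none)

def extS (φ : Fin 3 → ℝ) : VV ι → ℝ
  | .inl (a, none) => φ a
  | _ => 0

lemma sum_extS (φ : Fin 3 → ℝ) : ∑ v : VV ι, extS φ v = φ 0 + φ 1 + φ 2 := by
  simp [Fintype.sum_sum_type, Fintype.sum_prod_type, Fintype.sum_option, extS, Fin.sum_univ_three]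

abbrev YY (H : SimpleGraph ι) := XX (KK H Set.univ) (∅ ∪ Φ5 ι)

lemma YY_zero {H : SimpleGraph ι} {p : (VV ι → ℝ) × (VV ι → ℝ)} (hp : p ∈ YY H) (u : VV ι)
    (hu : ∀ a, u ≠ .inl (a, none)) : p.1 u = 0 ∧ p.2 u = 0 := by
  have := hp.2.2.2 (∅, {u}) (Or.inr ⟨u, hu, rfl⟩)
  simpa [and_comm] using this

lemma eq_extS {x : VV ι → ℝ} (h : ∀ u : VV ι, (∀ a, u ≠ .inl (a, none)) → x u = 0) :
    x = extS (fun a => x (star ι a)) := by
  funext u
  rcases u with ⟨a, _ | h'⟩ | ⟨a, b⟩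
  · rfl
  · exact h _ (by simp)
  · exact h _ (by simp)

lemma YY_facts {H : SimpleGraph ι} {p : (VV ι → ℝ) × (VV ι → ℝ)} (hp : p ∈ YY H) :
    p.1 = extS (fun a => p.1 (star ι a)) ∧ p.2 = extS (fun a => p.2 (star ι a)) ∧
    p.1 (star ι 0) + p.1 (star ι 1) + p.1 (star ι 2) = 1 ∧
    p.2 (star ι 0) + p.2 (star ι 1) + p.2 (star ι 2) = 1 ∧
    ∀ a, p.1 (star ι a) = 0 ∨ p.2 (star ι a) = 0 := by
  have e1 := eq_extS (fun u hu => (YY_zero hp u hu).1)
  have e2 := eq_extS (fun u hu => (YY_zero hp u hu).2)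
  refine ⟨e1, e2, ?_, ?_, ?_⟩
  · have := hp.1.2
    rw [e1, sum_extS] at this
    exact this
  · have := hp.2.1.2
    rw [e2, sum_extS] at this
    exact this
  · intro a
    by_contra h
    push Not at h
    exact (KK H Set.univ).loopless.irrefl _ (hp.2.2.1 _ h.1 _ h.2)

noncomputable def zc (p : (VV ι → ℝ) × (VV ι → ℝ)) : ℂ :=
  ((p.1 (star ι 0) - p.2 (star ι 0) : ℝ) : ℂ) + ((p.1 (star ι 1) - p.2 (star ι 1) : ℝ) : ℂ) * Complex.I

lemma zc_re (p : (VV ι → ℝ) × (VV ι → ℝ)) : (zc p).re = p.1 (star ι 0) - p.2 (star ι 0) := by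
  simp [zc]

lemma zc_im (p : (VV ι → ℝ) × (VV ι → ℝ)) : (zc p).im = p.1 (star ι 1) - p.2 (star ι 1) := by
  simp [zc]

lemma zc_ne {H : SimpleGraph ι} {p : (VV ι → ℝ) × (VV ι → ℝ)} (hp : p ∈ YY H) : zc p ≠ 0 := by
  intro h
  obtain ⟨-, -, s1, s2, hz⟩ := YY_facts hp
  have a0 := zc_re p
  have a1 := zc_im p
  rw [h] at a0 a1
  simp only [Complex.zero_re, Complex.zero_im] at a0 a1
  rcases hz 0 with h0 | h0 <;> rcases hz 1 with h1 | h1 <;> rcases hz 2 with h2 | h2 <;> linarith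

def zz (w : ℂ) : Fin 3 → ℝ := ![w.re, w.im, -w.re - w.im]

noncomputable def NN (w : ℂ) : ℝ := |w.re| + |w.im| + |-w.re - w.im|

lemma NN_pos {w : ℂ} (hw : w ≠ 0) : 0 < NN w := by
  unfold NN
  by_contra h
  push Not at h
  have h1 := abs_nonneg w.re
  have h2 := abs_nonneg w.im
  have h3 := abs_nonneg (-w.re - w.im)
  apply hw
  apply Complex.ext
  · exact abs_eq_zero.1 (by linarith)
  · exact abs_eq_zero.1 (by linarith)

noncomputable def gg (w : ℂ) (a : Fin 3) : ℝ := max (2 / NN w * zz w a) 0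

lemma NN_neg (w : ℂ) : NN (-w) = NN w := by
  simp only [NN, Complex.neg_re, Complex.neg_im, abs_neg, neg_neg]
  rw [← abs_neg (w.re - -w.im)]
  congr 2
  ring

lemma zz_neg (w : ℂ) (a : Fin 3) : zz (-w) a = - zz w a := by
  fin_cases a <;> simp [zz]
  ring

lemma gg_sub (w : ℂ) (a : Fin 3) : gg w a - gg (-w) a = 2 / NN w * zz w a := by
  unfold gg
  rw [NN_neg, zz_neg, mul_neg]
  rcases le_total (2 / NN w * zz w a) 0 with h | h
  · rw [max_eq_right h, max_eq_left (by linarith)]; ring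
  · rw [max_eq_left h, max_eq_right (by linarith)]; ring

lemma gg_sum {w : ℂ} (hw : w ≠ 0) : gg w 0 + gg w 1 + gg w 2 = 1 := by
  have hN := NN_pos hw
  have key : ∀ t : ℝ, max (2 / NN w * t) 0 = (t + |t|) / NN w := by
    intro t
    rcases le_total t 0 with h | h
    · rw [max_eq_right (mul_nonpos_of_nonneg_of_nonpos (by positivity) h), abs_of_nonpos h]; simp
    · rw [max_eq_left (by positivity), abs_of_nonneg h]; ring
  simp only [gg, key]
  rw [← add_div, ← add_div, div_eq_one_iff_eq hN.ne']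
  simp [zz, NN]
  ring

lemma gg_mem (H : SimpleGraph ι) {w : ℂ} (hw : w ≠ 0) :
    ((extS (gg w), extS (gg (-w))) : (VV ι → ℝ) × (VV ι → ℝ)) ∈ YY H := by
  have nn : ∀ (w : ℂ) (v : VV ι), 0 ≤ extS (gg w) v := by
    intro w v
    rcases v with ⟨a, _ | h'⟩ | ⟨a, b⟩
    · exact le_max_right _ _
    · exact le_rfl
    · exact le_rfl
  have supp : ∀ (w : ℂ) (v : VV ι), extS (gg w) v ≠ 0 → ∃ a, v = .inl (a, none) ∧ gg w a ≠ 0 := by
    intro w v hv
    rcases v with ⟨a, _ | h'⟩ | ⟨a, b⟩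
    · exact ⟨a, rfl, hv⟩
    · exact absurd rfl hv
    · exact absurd rfl hv
  refine ⟨⟨nn w, by rw [sum_extS, gg_sum hw]⟩,
    ⟨nn _, by rw [sum_extS, gg_sum (neg_ne_zero.2 hw)]⟩, ?_, ?_⟩
  · intro u hu v hv
    obtain ⟨a, rfl, ha⟩ := supp _ _ hu
    obtain ⟨b, rfl, hb⟩ := supp _ _ hv
    refine ⟨?_, by simp [pres], by simp [pres], trivial⟩
    rintro rfl
    unfold gg at ha hb
    rw [NN_neg, zz_neg, mul_neg] at hb
    rcases le_total (2 / NN w * zz w a) 0 with h | h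
    · exact ha (max_eq_right h)
    · exact hb (max_eq_right (by linarith))
  · rintro _ (hx | ⟨u, hu, rfl⟩)
    · exact hx.elim
    · constructor
      · rintro ⟨-, k⟩
        obtain ⟨a, ha, -⟩ := supp _ _ (k (a := u) (by simp))
        exact hu a ha
      · rintro ⟨-, k⟩
        obtain ⟨a, ha, -⟩ := supp _ _ (k (a := u) (by simp))
        exact hu a ha

lemma sph_ne (w : Metric.sphere (0 : ℂ) 1) : (w : ℂ) ≠ 0 := by
  intro h
  have := w.2
  simp [h] at this

lemma continuous_extS_gg (ε : ℂ) (hε : ε ≠ 0) :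
    Continuous (fun w : Metric.sphere (0 : ℂ) 1 => (extS (gg (ε * w)) : VV ι → ℝ)) := by
  refine continuous_pi fun v => ?_
  rcases v with ⟨a, _ | h'⟩ | ⟨a, b⟩
  · change Continuous (fun w : Metric.sphere (0 : ℂ) 1 => max (2 / NN (ε * w) * zz (ε * w) a) 0)
    refine Continuous.max (Continuous.mul (Continuous.div continuous_const ?_ ?_) ?_)
      continuous_const
    · unfold NN; fun_prop
    · intro w; exact (NN_pos (mul_ne_zero hε (sph_ne w))).ne'
    · fin_cases a <;> simp only [zz] <;> simp <;> fun_prop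
  · exact continuous_const
  · exact continuous_const

noncomputable def toSph (H : SimpleGraph ι) : C(YY H, Metric.sphere (0 : ℂ) 1) where
  toFun p := ⟨zc p.1 / (‖zc p.1‖ : ℂ), by
    have := norm_pos_iff.2 (zc_ne p.2)
    simp [this.ne']⟩
  continuous_toFun := by
    refine Continuous.subtype_mk ?_ _
    have : Continuous (fun p : YY H => zc p.1) := by unfold zc; fun_prop
    refine Continuous.div this (by fun_prop) ?_
    intro p
    simpa using zc_ne p.2

noncomputable def ofSph (H : SimpleGraph ι) : C(Metric.sphere (0 : ℂ) 1, YY H) where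
  toFun w := ⟨(extS (gg w), extS (gg (-w))), gg_mem H (sph_ne w)⟩
  continuous_toFun := by
    refine Continuous.subtype_mk (Continuous.prodMk ?_ ?_) _
    · simpa using continuous_extS_gg (ι := ι) 1 one_ne_zero
    · simpa using continuous_extS_gg (ι := ι) (-1) (by norm_num)

lemma zc_gg (w : ℂ) : zc ((extS (gg w), extS (gg (-w))) : (VV ι → ℝ) × (VV ι → ℝ)) =
    ((2 / NN w : ℝ) : ℂ) * w := by
  apply Complex.ext
  · rw [zc_re, Complex.re_ofReal_mul]
    exact gg_sub w 0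
  · rw [zc_im, Complex.im_ofReal_mul]
    exact gg_sub w 1

lemma to_of (H : SimpleGraph ι) (w : Metric.sphere (0 : ℂ) 1) : toSph H (ofSph H w) = w := by
  apply Subtype.ext
  change zc ((extS (gg w), extS (gg (-w))) : (VV ι → ℝ) × (VV ι → ℝ)) /
    (‖zc ((extS (gg w), extS (gg (-w))) : (VV ι → ℝ) × (VV ι → ℝ))‖ : ℂ) = w
  rw [zc_gg]
  have hN := NN_pos (sph_ne w)
  have h1 : ‖(w : ℂ)‖ = 1 := by simpa using w.2
  have h2 : (0 : ℝ) < 2 / NN w := by positivity
  rw [norm_mul, h1, mul_one, Complex.norm_real, Real.norm_eq_abs, abs_of_pos h2]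
  have : ((2 / NN w : ℝ) : ℂ) ≠ 0 := by exact_mod_cast h2.ne'
  field_simp

lemma gg_zc {H : SimpleGraph ι} {p : (VV ι → ℝ) × (VV ι → ℝ)} (hp : p ∈ YY H) (a : Fin 3) :
    gg (zc p / (‖zc p‖ : ℂ)) a = p.1 (star ι a) := by
  obtain ⟨-, -, s1, s2, hz⟩ := YY_facts hp
  have hn := norm_pos_iff.2 (zc_ne hp)
  have n1 := hp.1.1
  have n2 := hp.2.1.1
  have habs : ∀ a, |p.1 (star ι a) - p.2 (star ι a)| = p.1 (star ι a) + p.2 (star ι a) := by
    intro a
    rcases hz a with h | h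
    · rw [h, zero_sub, abs_neg, abs_of_nonneg (n2 _), zero_add]
    · rw [h, sub_zero, abs_of_nonneg (n1 _), add_zero]
  have hzz : ∀ a, zz (zc p / (‖zc p‖ : ℂ)) a = (p.1 (star ι a) - p.2 (star ι a)) / ‖zc p‖ := by
    intro a
    fin_cases a
    · simp [zz, Complex.div_ofReal_re, zc_re]
    · simp [zz, Complex.div_ofReal_im, zc_im]
    · simp only [zz, Complex.div_ofReal_re, Complex.div_ofReal_im, zc_re, zc_im]
      simp only [Fin.reduceFinMk, Matrix.cons_val]
      field_simp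
      linarith
  have hN : NN (zc p / (‖zc p‖ : ℂ)) = 2 / ‖zc p‖ := by
    have e : NN (zc p / (‖zc p‖ : ℂ)) = |zz (zc p / (‖zc p‖ : ℂ)) 0| + |zz (zc p / (‖zc p‖ : ℂ)) 1|
      + |zz (zc p / (‖zc p‖ : ℂ)) 2| := rfl
    rw [e, hzz, hzz, hzz, abs_div, abs_div, abs_div, habs, habs, habs, abs_of_pos hn]
    field_simp
    linarith
  unfold gg
  rw [hN, hzz]
  have : 2 / (2 / ‖zc p‖) * ((p.1 (star ι a) - p.2 (star ι a)) / ‖zc p‖) =
      p.1 (star ι a) - p.2 (star ι a) := by field_simp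
  rw [this]
  rcases hz a with h | h
  · rw [h, max_eq_right (by linarith [n2 (star ι a)])]
  · rw [h, sub_zero, max_eq_left (n1 _)]

lemma zc_swap (p : (VV ι → ℝ) × (VV ι → ℝ)) : zc p.swap = - zc p := by
  simp [zc]; ring

lemma of_to (H : SimpleGraph ι) (p : YY H) : ofSph H (toSph H p) = p := by
  apply Subtype.ext
  change ((extS (gg (zc p.1 / (‖zc p.1‖ : ℂ))), extS (gg (-(zc p.1 / (‖zc p.1‖ : ℂ))))) :
    (VV ι → ℝ) × (VV ι → ℝ)) = p.1
  have h1 : gg (zc p.1 / (‖zc p.1‖ : ℂ)) = fun a => p.1.1 (star ι a) := funext (gg_zc p.2)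
  have h2 : gg (-(zc p.1 / (‖zc p.1‖ : ℂ))) = fun a => p.1.2 (star ι a) := by
    have := funext (gg_zc (XX.swap _ p.2))
    rw [zc_swap, norm_neg, neg_div] at this
    exact this
  rw [h1, h2, ← (YY_facts p.2).1, ← (YY_facts p.2).2.1]

lemma YY_circle (H : SimpleGraph ι) :
    Z2HomotopyEquivalent (swapOn (YY H) XX.swap) (fun w : Metric.sphere (0 : ℂ) 1 => -w) := by
  refine ⟨toSph H, ofSph H, ?_, ?_, ?_, ?_⟩
  · intro p
    apply Subtype.ext
    change zc p.1.swap / (‖zc p.1.swap‖ : ℂ) = -(zc p.1 / (‖zc p.1‖ : ℂ))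
    rw [zc_swap, norm_neg, neg_div]
  · intro w
    apply Subtype.ext
    change ((extS (gg (-w)), extS (gg (-(-w)))) : (VV ι → ℝ) × (VV ι → ℝ)) =
      (extS (gg (-w)), extS (gg w))
    rw [neg_neg]
  · have : (ofSph H).comp (toSph H) = ContinuousMap.id _ := by ext1 p; exact of_to H p
    rw [this]
    exact EH.refl _ (fun _ => rfl)
  · have : (toSph H).comp (ofSph H) = ContinuousMap.id _ := by ext1 p; exact to_of H p
    rw [this]
    exact EH.refl _ (fun _ => rfl)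

lemma box_eq {V : Type} [Fintype V] (G : SimpleGraph V) : boxComplex G = XX G ∅ := by
  classical
  ext p
  constructor
  · rintro ⟨A, B, -, -, h, h1, h2⟩
    refine ⟨h1.1, h2.1, fun u hu v hv => h u ?_ v ?_, by simp⟩
    · by_contra k; exact hu (h1.2 u k)
    · by_contra k; exact hv (h2.2 v k)
  · rintro ⟨h1, h2, h3⟩
    obtain ⟨u, hu⟩ := exists_ne_zero h1
    obtain ⟨v, hv⟩ := exists_ne_zero h2
    refine ⟨Finset.univ.filter (fun v => p.1 v ≠ 0), Finset.univ.filter (fun v => p.2 v ≠ 0),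
      ⟨u, by simpa using hu⟩, ⟨v, by simpa using hv⟩, ?_, ⟨h1, ?_⟩, ⟨h2, ?_⟩⟩
    · intro a ha b hb
      exact h3.1 a (by simpa using ha) b (by simpa using hb)
    · intro v hv; simpa using hv
    · intro v hv; simpa using hv

lemma box_circle (H : SimpleGraph ι) (h0 : ι) :
    Z2HomotopyEquivalent (boxSwap (KK H ∅)) (fun w : Metric.sphere (0 : ℂ) 1 => -w) := by
  have k := chain H h0
  rw [← box_eq] at k
  obtain ⟨_, _, k⟩ := k
  exact ZE.trans k (YY_circle H)

end Pool.Agent.H17Z.Box
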