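import Pool.Agent.H17Z.Box.Abstract

set_option autoImplicit false
set_option linter.unusedSectionVars false

namespace Pool.Agent.H17Z.Box

open Finset

variable {V : Type} [Fintype V] [DecidableEq V]

/-- a pair of vertex sets is a cell: completely joined and containing no forbidden pattern -/
def Cell (G : SimpleGraph V) (F : Set (Finset V × Finset V)) (A B : Set V) : Prop :=
  (∀ u ∈ A, ∀ v ∈ B, G.Adj u v) ∧
    ∀ c ∈ F, ¬ ((c.1 : Set V) ⊆ A ∧ (c.2 : Set V) ⊆ B) ∧ ¬ ((c.1 : Set V) ⊆ B ∧ (c.2 : Set V) ⊆ A)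

omit [Fintype V] [DecidableEq V] in
lemma Cell.symm {G : SimpleGraph V} {F : Set (Finset V × Finset V)} {A B : Set V}
    (h : Cell G F A B) : Cell G F B A :=
  ⟨fun u hu v hv => (h.1 v hv u hu).symm, fun c hc => ⟨(h.2 c hc).2, (h.2 c hc).1⟩⟩

omit [Fintype V] [DecidableEq V] in
lemma Cell.mono {G : SimpleGraph V} {F : Set (Finset V × Finset V)} {A B A' B' : Set V}
    (h : Cell G F A B) (hA : A' ⊆ A) (hB : B' ⊆ B) : Cell G F A' B' :=
  ⟨fun u hu v hv => h.1 u (hA hu) v (hB hv), fun c hc =>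
    ⟨fun k => (h.2 c hc).1 ⟨k.1.trans hA, k.2.trans hB⟩,
     fun k => (h.2 c hc).2 ⟨k.1.trans hB, k.2.trans hA⟩⟩⟩

/-- the union of the cells -/
def XX (G : SimpleGraph V) (F : Set (Finset V × Finset V)) : Set ((V → ℝ) × (V → ℝ)) :=
  {p | p.1 ∈ stdSimplex ℝ V ∧ p.2 ∈ stdSimplex ℝ V ∧
    Cell G F (Function.support p.1) (Function.support p.2)}

omit [DecidableEq V] in
lemma XX.swap {G : SimpleGraph V} {F : Set (Finset V × Finset V)} :
    ∀ p ∈ XX G F, p.swap ∈ XX G F := fun _ hp => ⟨hp.2.1, hp.1, hp.2.2.symm⟩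

def mn (c : ℝ) (S : Finset V) (x : V → ℝ) : ℝ := S.fold min 1 (fun v => c * x v)

omit [Fintype V] in
lemma continuous_mn (c : ℝ) (S : Finset V) : Continuous (mn c S) := by
  induction S using Finset.induction_on with
  | empty => exact (continuous_const : Continuous (fun _ : V → ℝ => (1 : ℝ)))
  | insert a s ha ih =>
    have : mn c (insert a s) = fun x => min (c * x a) (mn c s x) := by
      funext x; simp [mn, Finset.fold_insert ha]
    rw [this]
    exact Continuous.min (by fun_prop) ih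

def lam (S T : Finset V) (x y : V → ℝ) : ℝ := min (mn ((S.card : ℝ) + 1) S x) (mn 1 T y)

omit [Fintype V] [DecidableEq V] in
lemma lam_le_one (S T : Finset V) (x y : V → ℝ) : lam S T x y ≤ 1 := by
  refine (min_le_left _ _).trans ?_
  exact (Finset.fold_min_le _).2 (Or.inl le_rfl)

omit [Fintype V] [DecidableEq V] in
lemma lam_le_S (S T : Finset V) (x y : V → ℝ) {u : V} (hu : u ∈ S) :
    lam S T x y ≤ ((S.card : ℝ) + 1) * x u := by
  refine (min_le_left _ _).trans ?_
  exact (Finset.fold_min_le _).2 (Or.inr ⟨u, hu, le_rfl⟩)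

omit [Fintype V] [DecidableEq V] in
lemma lam_le_T (S T : Finset V) (x y : V → ℝ) {u : V} (hu : u ∈ T) :
    lam S T x y ≤ y u := by
  refine (min_le_right _ _).trans ?_
  exact (Finset.fold_min_le _).2 (Or.inr ⟨u, hu, by simp⟩)

omit [Fintype V] [DecidableEq V] in
lemma lam_nonneg (S T : Finset V) {x y : V → ℝ} (hx : ∀ v, 0 ≤ x v) (hy : ∀ v, 0 ≤ y v) :
    0 ≤ lam S T x y := by
  refine le_min ?_ ?_
  · exact (Finset.le_fold_min _).2 ⟨zero_le_one, fun v _ => mul_nonneg (by positivity) (hx v)⟩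
  · exact (Finset.le_fold_min _).2 ⟨zero_le_one, fun v _ => mul_nonneg (by positivity) (hy v)⟩

omit [Fintype V] [DecidableEq V] in
lemma lam_attained (S T : Finset V) (hT : T.Nonempty) {x y : V → ℝ} (hy : ∀ v, y v ≤ 1) :
    (∃ u ∈ S, ((S.card : ℝ) + 1) * x u ≤ lam S T x y) ∨ ∃ v ∈ T, y v ≤ lam S T x y := by
  obtain ⟨v0, hv0⟩ := hT
  have h : min (mn ((S.card : ℝ) + 1) S x) (mn 1 T y) ≤ lam S T x y := le_rfl
  rcases min_le_iff.1 h with h | h
  · rcases (Finset.fold_min_le _).1 h with h | h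
    · exact Or.inr ⟨v0, hv0, (hy v0).trans h⟩
    · exact Or.inl h
  · rcases (Finset.fold_min_le _).1 h with h | ⟨v, hv, h⟩
    · exact Or.inr ⟨v0, hv0, (hy v0).trans h⟩
    · exact Or.inr ⟨v, hv, by simpa using h⟩

omit [Fintype V] in
lemma continuous_lam (S T : Finset V) :
    Continuous (fun p : (V → ℝ) × (V → ℝ) => lam S T p.1 p.2) :=
  Continuous.min ((continuous_mn _ _).comp continuous_fst) ((continuous_mn _ _).comp continuous_snd)

noncomputable def den (S T : Finset V) (t : ℝ) (x y : V → ℝ) : ℝ :=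
  1 - t * lam S T x y * (S.card : ℝ) / ((S.card : ℝ) + 1)

omit [Fintype V] [DecidableEq V] in
lemma den_pos (S T : Finset V) {t : ℝ} (h0 : 0 ≤ t) (h1 : t ≤ 1) (x y : V → ℝ) :
    0 < den S T t x y := by
  unfold den
  have hk : (0 : ℝ) ≤ S.card := by positivity
  have h2 : t * lam S T x y ≤ 1 := by
    have := lam_le_one S T x y
    nlinarith
  rw [sub_pos, div_lt_one (by positivity)]
  nlinarith

noncomputable def FF (S T : Finset V) (w : V) (t : ℝ) (x y : V → ℝ) (u : V) : ℝ :=
  (x u - (if u ∈ S then t * lam S T x y / ((S.card : ℝ) + 1) else 0)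
    - (if u ∈ T then t * lam S T y x else 0)
    + (if u = w then t * lam S T y x * (T.card : ℝ) else 0)) / den S T t x y

lemma sum_FF (S T : Finset V) (w : V) {t : ℝ} (h0 : 0 ≤ t) (h1 : t ≤ 1) {x : V → ℝ} (y : V → ℝ)
    (hx : ∑ u, x u = 1) : ∑ u, FF S T w t x y u = 1 := by
  unfold FF
  rw [← Finset.sum_div, div_eq_one_iff_eq (den_pos S T h0 h1 x y).ne']
  simp only [Finset.sum_add_distrib, Finset.sum_sub_distrib, hx, Finset.sum_ite_mem,
    Finset.univ_inter, Finset.sum_const, nsmul_eq_mul, Finset.sum_ite_eq', Finset.mem_univ, if_true]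
  unfold den
  ring

noncomputable def DD (S T : Finset V) (w : V) (q : unitInterval × ((V → ℝ) × (V → ℝ))) :
    (V → ℝ) × (V → ℝ) := (FF S T w q.1 q.2.1 q.2.2, FF S T w q.1 q.2.2 q.2.1)

lemma continuous_FF (S T : Finset V) (w : V) :
    Continuous (fun q : unitInterval × ((V → ℝ) × (V → ℝ)) => FF S T w q.1 q.2.1 q.2.2) := by
  have hl : Continuous (fun q : unitInterval × ((V → ℝ) × (V → ℝ)) => lam S T q.2.1 q.2.2) :=
    (continuous_lam S T).comp continuous_snd
  have hl' : Continuous (fun q : unitInterval × ((V → ℝ) × (V → ℝ)) => lam S T q.2.2 q.2.1) :=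
    (continuous_lam S T).comp (continuous_swap.comp continuous_snd)
  refine continuous_pi fun u => ?_
  unfold FF
  refine Continuous.div ?_ ?_ (fun q => (den_pos S T q.1.2.1 q.1.2.2 _ _).ne')
  · refine Continuous.add (Continuous.sub (Continuous.sub (by fun_prop) ?_) ?_) ?_
    · split_ifs <;> fun_prop
    · split_ifs <;> fun_prop
    · split_ifs <;> fun_prop
  · unfold den
    fun_prop

lemma continuous_DD (S T : Finset V) (w : V) : Continuous (DD S T w) := by
  refine Continuous.prodMk (continuous_FF S T w) ?_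
  exact (continuous_FF S T w).comp
    (continuous_fst.prodMk (continuous_swap.comp continuous_snd))

omit [Fintype V] in
lemma FF_eq_self (S T : Finset V) (w : V) (t : ℝ) {x y : V → ℝ} (h1 : t * lam S T x y = 0)
    (h2 : t * lam S T y x = 0) : FF S T w t x y = x := by
  funext u
  simp [FF, den, h1, h2]

section main
variable {G : SimpleGraph V} {F : Set (Finset V × Finset V)} {S T : Finset V} {w : V}

omit [DecidableEq V] in
lemma lam_pos_sub {p : (V → ℝ) × (V → ℝ)} (hp : p ∈ XX G F) (h : lam S T p.1 p.2 ≠ 0) :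
    (S : Set V) ⊆ Function.support p.1 ∧ (T : Set V) ⊆ Function.support p.2 := by
  have hpos : 0 < lam S T p.1 p.2 := lt_of_le_of_ne (lam_nonneg S T hp.1.1 hp.2.1.1) (Ne.symm h)
  constructor
  · intro u hu h0
    have := lam_le_S S T p.1 p.2 (u := u) hu
    rw [h0] at this
    linarith
  · intro u hu h0
    have := lam_le_T S T p.1 p.2 (u := u) hu
    rw [h0] at this
    linarith

omit [DecidableEq V] in
lemma lam_or (hT : T.Nonempty) {p : (V → ℝ) × (V → ℝ)} (hp : p ∈ XX G F) :
    lam S T p.1 p.2 = 0 ∨ lam S T p.2 p.1 = 0 := by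
  by_contra h
  push Not at h
  obtain ⟨v, hv⟩ := hT
  have h1 := (lam_pos_sub hp h.1).2 hv
  have h2 := (lam_pos_sub (XX.swap p hp) h.2).2 hv
  exact G.loopless.irrefl v (hp.2.2.1 v h2 v h1)

lemma DD_main (hT : T.Nonempty) (hw : w ∉ T)
    (hext : ∀ A B : Set V, Cell G F A B → (S : Set V) ⊆ A → (T : Set V) ⊆ B →
      Cell G F A (insert w B))
    {p : (V → ℝ) × (V → ℝ)} (hp : p ∈ XX G F) (h : lam S T p.2 p.1 = 0) (t : unitInterval) :
    DD S T w (t, p) ∈ XX G F ∧ (t = 1 → DD S T w (t, p) ∈ XX G (insert (S, T) F)) := by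
  have ht0 : (0 : ℝ) ≤ t := t.2.1
  have ht1 : (t : ℝ) ≤ 1 := t.2.2
  have hl0 : 0 ≤ lam S T p.1 p.2 := lam_nonneg S T hp.1.1 hp.2.1.1
  have hd := den_pos S T ht0 ht1 p.1 p.2
  have hd' : den S T t p.2 p.1 = 1 := by simp [den, h]
  have hk : (0 : ℝ) < (S.card : ℝ) + 1 := by positivity
  have e1 : ∀ u, FF S T w t p.1 p.2 u =
      (p.1 u - (if u ∈ S then t * lam S T p.1 p.2 / ((S.card : ℝ) + 1) else 0)) /
        den S T t p.1 p.2 := by
    intro u; simp [FF, h]
  have e2 : ∀ u, FF S T w t p.2 p.1 u =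
      p.2 u - (if u ∈ T then t * lam S T p.1 p.2 else 0)
        + (if u = w then t * lam S T p.1 p.2 * (T.card : ℝ) else 0) := by
    intro u; simp [FF, h, hd']
  have htl : (t : ℝ) * lam S T p.1 p.2 ≤ lam S T p.1 p.2 := by nlinarith
  have htl0 : 0 ≤ (t : ℝ) * lam S T p.1 p.2 := mul_nonneg ht0 hl0
  have n1 : ∀ u, 0 ≤ FF S T w t p.1 p.2 u := by
    intro u
    rw [e1]
    refine div_nonneg ?_ hd.le
    split_ifs with hu
    · have := lam_le_S S T p.1 p.2 hu
      rw [sub_nonneg, div_le_iff₀ hk]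
      linarith
    · simpa using hp.1.1 u
  have n2 : ∀ u, 0 ≤ FF S T w t p.2 p.1 u := by
    intro u
    rw [e2]
    refine add_nonneg ?_ ?_
    · split_ifs with hu
      · have := lam_le_T S T p.1 p.2 hu
        linarith
      · simpa using hp.2.1.1 u
    · split_ifs
      · positivity
      · exact le_rfl
  have s1 : Function.support (FF S T w t p.1 p.2) ⊆ Function.support p.1 := by
    intro u hu h0
    apply hu
    refine le_antisymm ?_ (n1 u)
    rw [e1, h0]
    refine div_nonpos_of_nonpos_of_nonneg ?_ hd.le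
    split_ifs
    · have : 0 ≤ (t : ℝ) * lam S T p.1 p.2 / ((S.card : ℝ) + 1) := by positivity
      linarith
    · simp
  have s2 : Function.support (FF S T w t p.2 p.1) ⊆ insert w (Function.support p.2) := by
    intro u hu
    by_cases huw : u = w
    · exact Or.inl huw
    · refine Or.inr fun h0 => hu ?_
      refine le_antisymm ?_ (n2 u)
      rw [e2, h0, if_neg huw]
      split_ifs
      · linarith
      · simp
  have hX : DD S T w (t, p) ∈ XX G F := by
    by_cases hl : lam S T p.1 p.2 = 0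
    · have a1 : FF S T w t p.1 p.2 = p.1 := FF_eq_self S T w t (by simp [hl]) (by simp [h])
      have a2 : FF S T w t p.2 p.1 = p.2 := FF_eq_self S T w t (by simp [h]) (by simp [hl])
      have : DD S T w (t, p) = p := by simp [DD, a1, a2]
      rw [this]; exact hp
    · have hs := lam_pos_sub hp hl
      exact ⟨⟨n1, sum_FF S T w ht0 ht1 _ hp.1.2⟩, ⟨n2, sum_FF S T w ht0 ht1 _ hp.2.1.2⟩,
        (hext _ _ hp.2.2 hs.1 hs.2).mono s1 s2⟩
  refine ⟨hX, fun ht => ⟨hX.1, hX.2.1, hX.2.2.1, ?_⟩⟩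
  intro c hc
  rcases hc with rfl | hc
  swap
  · exact hX.2.2.2 c hc
  have ht' : (t : ℝ) = 1 := by rw [ht]; rfl
  constructor
  · rintro ⟨k1, k2⟩
    have hy1 : ∀ v, p.2 v ≤ 1 := fun v => (mem_Icc_of_mem_stdSimplex hp.2.1 v).2
    rcases lam_attained S T hT (x := p.1) hy1 with ⟨u, hu, hle⟩ | ⟨v, hv, hle⟩
    · apply k1 hu
      refine le_antisymm ?_ (n1 u)
      change FF S T w t p.1 p.2 u ≤ 0
      rw [e1, if_pos hu, ht', one_mul]
      refine div_nonpos_of_nonpos_of_nonneg ?_ (by rw [← ht']; exact hd.le)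
      rw [sub_nonpos, le_div_iff₀ hk]
      linarith
    · apply k2 hv
      refine le_antisymm ?_ (n2 v)
      change FF S T w t p.2 p.1 v ≤ 0
      have hvw : v ≠ w := fun e => hw (e ▸ hv)
      rw [e2, if_pos hv, if_neg hvw, ht']
      linarith
  · rintro ⟨k1, k2⟩
    by_cases hl : lam S T p.1 p.2 = 0
    · have a1 : FF S T w t p.1 p.2 = p.1 := FF_eq_self S T w t (by simp [hl]) (by simp [h])
      have a2 : FF S T w t p.2 p.1 = p.2 := FF_eq_self S T w t (by simp [h]) (by simp [hl])
      have hx1 : ∀ v, p.1 v ≤ 1 := fun v => (mem_Icc_of_mem_stdSimplex hp.1 v).2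
      change _ ⊆ Function.support (FF S T w t p.2 p.1) at k1
      change _ ⊆ Function.support (FF S T w t p.1 p.2) at k2
      rw [a2] at k1
      rw [a1] at k2
      rcases lam_attained S T hT (x := p.2) hx1 with ⟨u, hu, hle⟩ | ⟨v, hv, hle⟩
      · apply k1 hu
        refine le_antisymm ?_ (hp.2.1.1 u)
        rw [h] at hle
        by_contra hh
        push Not at hh
        have := mul_pos hk hh
        linarith
      · apply k2 hv
        rw [h] at hle
        exact le_antisymm hle (hp.1.1 v)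
    · obtain ⟨v, hv⟩ := hT
      have h1 := (lam_pos_sub hp hl).2 hv
      have h2 := s1 (k2 hv)
      exact G.loopless.irrefl v (hp.2.2.1 v h2 v h1)

lemma collapse (hT : T.Nonempty) (hw : w ∉ T)
    (hext : ∀ A B : Set V, Cell G F A B → (S : Set V) ⊆ A → (T : Set V) ⊆ B →
      Cell G F A (insert w B)) : ZS (XX G F) (XX G (insert (S, T) F)) := by
  have hsub : XX G (insert (S, T) F) ⊆ XX G F := fun p hp =>
    ⟨hp.1, hp.2.1, hp.2.2.1, fun c hc => hp.2.2.2 c (Or.inr hc)⟩
  have key : ∀ t, ∀ p ∈ XX G F,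
      DD S T w (t, p) ∈ XX G F ∧ (t = 1 → DD S T w (t, p) ∈ XX G (insert (S, T) F)) := by
    intro t p hp
    rcases lam_or (S := S) hT hp with h | h
    · have := DD_main hT hw hext (XX.swap p hp) h t
      exact ⟨XX.swap _ this.1, fun ht => XX.swap _ (this.2 ht)⟩
    · exact DD_main hT hw hext hp h t
  refine ZS.of_deform XX.swap XX.swap hsub (DD S T w) (continuous_DD S T w)
    (fun t p hp => (key t p hp).1) ?_ ?_ (fun p hp => (key 1 p hp).2 rfl) (fun t p => rfl)
  · intro t p hp
    have hl : lam S T p.1 p.2 = 0 := by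
      by_contra hl
      exact (hp.2.2.2 (S, T) (Or.inl rfl)).1 (lam_pos_sub hp hl)
    have h : lam S T p.2 p.1 = 0 := by
      by_contra hl
      exact (hp.2.2.2 (S, T) (Or.inl rfl)).2 (lam_pos_sub (XX.swap p hp) hl)
    have a1 : FF S T w t p.1 p.2 = p.1 := FF_eq_self S T w t (by simp [hl]) (by simp [h])
    have a2 : FF S T w t p.2 p.1 = p.2 := FF_eq_self S T w t (by simp [h]) (by simp [hl])
    have : DD S T w (t, p) = p := by simp [DD, a1, a2]
    rw [this]; exact hp
  · intro p hp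
    have a1 : FF S T w ((0 : unitInterval) : ℝ) p.1 p.2 = p.1 :=
      FF_eq_self S T w _ (by simp) (by simp)
    have a2 : FF S T w ((0 : unitInterval) : ℝ) p.2 p.1 = p.2 :=
      FF_eq_self S T w _ (by simp) (by simp)
    change (FF S T w ((0 : unitInterval) : ℝ) p.1 p.2, FF S T w ((0 : unitInterval) : ℝ) p.2 p.1) = p
    rw [a1, a2]

end main

/-- many collapses, whose apexes do not occur in the removed patterns -/
lemma batch {G : SimpleGraph V} {F Φ : Set (Finset V × Finset V)}
    (h : ∀ c ∈ Φ, c.2.Nonempty ∧ ∃ w : V, (∀ c' ∈ Φ, w ∉ c'.1 ∧ w ∉ c'.2) ∧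
      ∀ A B : Set V, Cell G F A B → (c.1 : Set V) ⊆ A → (c.2 : Set V) ⊆ B →
        Cell G F A (insert w B)) : ZS (XX G F) (XX G (F ∪ Φ)) := by
  classical
  have key : ∀ R : Finset (Finset V × Finset V), (R : Set _) ⊆ Φ → ZS (XX G F) (XX G (F ∪ R)) := by
    intro R
    induction R using Finset.induction_on with
    | empty => intro _; simpa using ZS.refl XX.swap
    | insert c R hc ih =>
      intro hR
      have hR' : (R : Set _) ⊆ Φ := fun x hx => hR (by simp [Finset.mem_coe.1 hx])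
      have hcΦ : c ∈ Φ := hR (by simp)
      obtain ⟨hT, w, hw, hext⟩ := h c hcΦ
      refine (ih hR').trans ?_
      have e : F ∪ ((insert c R : Finset _) : Set _) = insert (c.1, c.2) (F ∪ (R : Set _)) := by
        ext x; simp
      rw [e]
      refine collapse hT (hw c hcΦ).2 ?_
      intro A B hAB h1 h2
      have hF : Cell G F A B := ⟨hAB.1, fun c hc => hAB.2 c (Or.inl hc)⟩
      have := hext A B hF h1 h2
      refine ⟨this.1, ?_⟩
      rintro c' (hc' | hc')
      · exact this.2 c' hc'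
      · have hw' := hw c' (hR' hc')
        have k := hAB.2 c' (Or.inr hc')
        constructor
        · rintro ⟨k1, k2⟩
          refine k.1 ⟨k1, fun v hv => ?_⟩
          rcases k2 hv with rfl | hv'
          · exact absurd hv hw'.2
          · exact hv'
        · rintro ⟨k1, k2⟩
          refine k.2 ⟨fun v hv => ?_, k2⟩
          rcases k1 hv with rfl | hv'
          · exact absurd hv hw'.1
          · exact hv'
  have e : (((Set.toFinite Φ).toFinset : Finset _) : Set _) = Φ := Set.Finite.coe_toFinset _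
  have := key (Set.toFinite Φ).toFinset e.subset
  rwa [e] at this

end Pool.Agent.H17Z.Box
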