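import Mathlib

set_option autoImplicit false

namespace Pool.Agent.H17Z.Box

/-- The categorical (tensor) product of two graphs. -/
def tensor {α β : Type} (G : SimpleGraph α) (H : SimpleGraph β) : SimpleGraph (α × β) where
  Adj p q := G.Adj p.1 q.1 ∧ H.Adj p.2 q.2
  symm := ⟨fun _ _ h => ⟨h.1.symm, h.2.symm⟩⟩
  loopless := ⟨fun _ h => G.loopless.irrefl _ h.1⟩

/-- `K` is multiplicative: for all finite graphs `G`, `H`, a homomorphism `G × H → K` gives a
homomorphism `G → K` or a homomorphism `H → K`. -/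
def Multiplicative {V : Type} (K : SimpleGraph V) : Prop :=
  ∀ (α β : Type) [Fintype α] [Fintype β] (G : SimpleGraph α) (H : SimpleGraph β),
    Nonempty (tensor G H →g K) → Nonempty (G →g K) ∨ Nonempty (H →g K)

/-- The geometric simplex `Δ^A` spanned by the vertices in `A`, inside `ℝ^V`. -/
def face {V : Type} [Fintype V] (A : Finset V) : Set (V → ℝ) :=
  {x | x ∈ stdSimplex ℝ V ∧ ∀ v, v ∉ A → x v = 0}

/-- The box complex `Hom(K₂, K)`: the union of the cells `Δ^A × Δ^B` over all pairs of nonempty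
vertex sets `A`, `B` with every vertex of `A` adjacent to every vertex of `B`. -/
def boxComplex {V : Type} [Fintype V] (K : SimpleGraph V) : Set ((V → ℝ) × (V → ℝ)) :=
  {p | ∃ A B : Finset V, A.Nonempty ∧ B.Nonempty ∧ (∀ a ∈ A, ∀ b ∈ B, K.Adj a b) ∧
    p.1 ∈ face A ∧ p.2 ∈ face B}

/-- The involution of the box complex, exchanging the two coordinates. -/
def boxSwap {V : Type} [Fintype V] (K : SimpleGraph V) (p : boxComplex K) : boxComplex K :=
  ⟨(p.1.2, p.1.1), by
    obtain ⟨A, B, hA, hB, h, h1, h2⟩ := p.2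
    exact ⟨B, A, hB, hA, fun b hb a ha => (h a ha b hb).symm, h2, h1⟩⟩

/-- `f` and `g` are homotopic through equivariant maps. -/
def EquivariantlyHomotopic {X Y : Type} [TopologicalSpace X] [TopologicalSpace Y]
    (νX : X → X) (νY : Y → Y) (f g : C(X, Y)) : Prop :=
  ∃ H : ContinuousMap.Homotopy f g, ∀ t x, H (t, νX x) = νY (H (t, x))

/-- The spaces `X`, `Y` with the involutions `νX`, `νY` are `ℤ₂`-homotopy equivalent. -/
def Z2HomotopyEquivalent {X Y : Type} [TopologicalSpace X] [TopologicalSpace Y]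
    (νX : X → X) (νY : Y → Y) : Prop :=
  ∃ (f : C(X, Y)) (g : C(Y, X)), (∀ x, f (νX x) = νY (f x)) ∧ (∀ y, g (νY y) = νX (g y)) ∧
    EquivariantlyHomotopic νX νX (g.comp f) (ContinuousMap.id X) ∧
    EquivariantlyHomotopic νY νY (f.comp g) (ContinuousMap.id Y)

end Pool.Agent.H17Z.Box
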