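import Pool.Agent.H17Z.Box.Collapse

set_option autoImplicit false
set_option linter.unusedSectionVars false

namespace Pool.Agent.H17Z.Box

variable {ι : Type} [Fintype ι] [DecidableEq ι]

abbrev VV (ι : Type) : Type := (Fin 3 × Option ι) ⊕ (Fin 3 × Fin 3)

def adjO (H : SimpleGraph ι) : Option ι → Option ι → Prop
  | some h, some h' => H.Adj h h'
  | _, _ => True

lemma adjO_symm (H : SimpleGraph ι) {h h' : Option ι} (k : adjO H h h') : adjO H h' h := by
  cases h <;> cases h' <;> first | trivial | exact H.adj_symm k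

@[simp] lemma adjO_none_left (H : SimpleGraph ι) (h : Option ι) : adjO H none h := by
  cases h <;> trivial

@[simp] lemma adjO_none_right (H : SimpleGraph ι) (h : Option ι) : adjO H h none := by
  cases h <;> trivial

def pres (R : Set (Fin 3)) (a : Fin 3) (h : Option ι) : Prop := h = none → a ∈ R

def adjK (H : SimpleGraph ι) (R : Set (Fin 3)) : VV ι → VV ι → Prop
  | .inl (a, h), .inl (b, h') => a ≠ b ∧ pres R a h ∧ pres R b h' ∧ adjO H h h'
  | .inl (a, h), .inr (a', b) => a = a' ∧ a' ≠ b ∧ pres R a h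
  | .inr (a', b), .inl (a, h) => a = a' ∧ a' ≠ b ∧ pres R a h
  | .inr (a, b), .inr (b', a') => a = a' ∧ b = b' ∧ a ≠ b

def KK (H : SimpleGraph ι) (R : Set (Fin 3)) : SimpleGraph (VV ι) where
  Adj := adjK H R
  symm := ⟨by
    rintro (⟨a, h⟩ | ⟨a, b⟩) (⟨a', h'⟩ | ⟨a', b'⟩) k
    · exact ⟨k.1.symm, k.2.2.1, k.2.1, adjO_symm H k.2.2.2⟩
    · exact k
    · exact k
    · obtain ⟨rfl, rfl, k⟩ := k
      exact ⟨rfl, rfl, Ne.symm k⟩⟩
  loopless := ⟨by
    rintro (⟨a, h⟩ | ⟨a, b⟩) k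
    · exact k.1 rfl
    · exact k.2.2 k.1⟩

@[simp] lemma adj_PP (H : SimpleGraph ι) (R : Set (Fin 3)) (a b : Fin 3) (h h' : Option ι) :
    (KK H R).Adj (.inl (a, h)) (.inl (b, h')) ↔
      a ≠ b ∧ pres R a h ∧ pres R b h' ∧ adjO H h h' := Iff.rfl
@[simp] lemma adj_PW (H : SimpleGraph ι) (R : Set (Fin 3)) (a a' b : Fin 3) (h : Option ι) :
    (KK H R).Adj (.inl (a, h)) (.inr (a', b)) ↔ a = a' ∧ a' ≠ b ∧ pres R a h := Iff.rfl
@[simp] lemma adj_WP (H : SimpleGraph ι) (R : Set (Fin 3)) (a a' b : Fin 3) (h : Option ι) :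
    (KK H R).Adj (.inr (a', b)) (.inl (a, h)) ↔ a = a' ∧ a' ≠ b ∧ pres R a h := Iff.rfl
@[simp] lemma adj_WW (H : SimpleGraph ι) (R : Set (Fin 3)) (a a' b b' : Fin 3) :
    (KK H R).Adj (.inr (a, b)) (.inr (b', a')) ↔ a = a' ∧ b = b' ∧ a ≠ b := Iff.rfl

/-- To extend a cell by `w`, when all forbidden patterns contain `s` and `s` lies in the cell. -/
lemma cell_insert {V : Type} {G : SimpleGraph V} {F : Set (Finset V × Finset V)} {A B : Set V}
    {w : V} (hAB : Cell G F A B) (hadj : ∀ u ∈ A, G.Adj u w)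
    (h1 : ∀ c ∈ F, (c.1 : Set V) ⊆ A → (c.2 : Set V) ⊆ insert w B → w ∈ c.2 → False)
    (h2 : ∀ c ∈ F, (c.1 : Set V) ⊆ insert w B → (c.2 : Set V) ⊆ A → w ∈ c.1 → False) :
    Cell G F A (insert w B) := by
  refine ⟨?_, fun c hc => ⟨?_, ?_⟩⟩
  · rintro u hu v (rfl | hv)
    · exact hadj u hu
    · exact hAB.1 u hu v hv
  · rintro ⟨k1, k2⟩
    by_cases hw : w ∈ c.2
    · exact h1 c hc k1 k2 hw
    · refine (hAB.2 c hc).1 ⟨k1, fun v hv => ?_⟩
      rcases k2 hv with rfl | hv'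
      · exact absurd hv hw
      · exact hv'
  · rintro ⟨k1, k2⟩
    by_cases hw : w ∈ c.1
    · exact h2 c hc k1 k2 hw
    · refine (hAB.2 c hc).2 ⟨fun v hv => ?_, k2⟩
      rcases k1 hv with rfl | hv'
      · exact absurd hv hw
      · exact hv'

section remove
variable (a b c : Fin 3)

def Φ1 (ι : Type) [DecidableEq ι] : Set (Finset (VV ι) × Finset (VV ι)) :=
  {x | ∃ (h : Option ι) (v : VV ι), ((∃ h', v = .inl (c, h')) ∨ v = .inr (a, c)) ∧
    x = ({.inl (a, none)}, {.inl (b, h), v})}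

def Φ2 (ι : Type) [DecidableEq ι] : Set (Finset (VV ι) × Finset (VV ι)) :=
  {x | ∃ h : Option ι, x = ({.inl (a, none)}, {.inl (c, h), .inr (a, b)})}

def Φ3 (ι : Type) [DecidableEq ι] : Set (Finset (VV ι) × Finset (VV ι)) :=
  {x | ∃ (e : Fin 3) (h : Option ι), e ≠ a ∧ x = ({.inl (e, h)}, {.inl (a, none)})}

def Φ4 (ι : Type) [DecidableEq ι] : Set (Finset (VV ι) × Finset (VV ι)) :=
  {x | x = (∅, {.inl (a, none)})}

variable {a b c}
variable (H : SimpleGraph ι) (R : Set (Fin 3)) (hab : a ≠ b) (hac : a ≠ c) (hbc : b ≠ c)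
  (hall : ∀ e, e = a ∨ e = b ∨ e = c)
include hab hac hbc hall

lemma step1 : ZS (XX (KK H R) ∅) (XX (KK H R) (∅ ∪ Φ1 a b c ι)) := by
  refine batch ?_
  rintro _ ⟨h, v, hv, rfl⟩
  refine ⟨by simp, .inr (a, b), ?_, ?_⟩
  · rintro _ ⟨h1, v1, hv1, rfl⟩
    rcases hv1 with ⟨h', rfl⟩ | rfl <;> simp [hbc]
  · intro A B hAB hS hT
    refine cell_insert hAB ?_ (by simp) (by simp)
    intro u hu
    have k1 := hAB.1 u hu (.inl (b, h)) (hT (by simp))
    have k2 := hAB.1 u hu v (hT (by simp))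
    rcases u with ⟨e, h2⟩ | ⟨e, e'⟩
    · rcases hv with ⟨h', rfl⟩ | rfl
      · simp only [adj_PP] at k1 k2
        have : e = a := by
          rcases hall e with h | h | h
          · exact h
          · exact absurd h k1.1
          · exact absurd h k2.1
        exact ⟨this, hab, k1.2.1⟩
      · simp only [adj_PP, adj_PW] at k1 k2
        exact ⟨k2.1, hab, k1.2.1⟩
    · rcases hv with ⟨h', rfl⟩ | rfl
      · simp only [adj_WP] at k1 k2
        exact absurd (k1.1.trans k2.1.symm) hbc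
      · simp only [adj_WP, adj_WW] at k1 k2
        exact absurd (k1.1.trans k2.1) hbc

lemma step2 : ZS (XX (KK H R) (∅ ∪ Φ1 a b c ι)) (XX (KK H R) ((∅ ∪ Φ1 a b c ι) ∪ Φ2 a b c ι)) := by
  refine batch ?_
  rintro _ ⟨h, rfl⟩
  refine ⟨by simp, .inr (a, c), ?_, ?_⟩
  · rintro _ ⟨h1, rfl⟩
    simp [hbc.symm]
  · intro A B hAB hS hT
    have m1 : (Sum.inl (c, h) : VV ι) ∈ B := hT (by simp)
    have m2 : (Sum.inr (a, b) : VV ι) ∈ B := hT (by simp)
    have m3 : (Sum.inl (a, none) : VV ι) ∈ A := hS (by simp)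
    refine cell_insert hAB ?_ ?_ ?_
    · intro u hu
      have k1 := hAB.1 u hu _ m1
      have k2 := hAB.1 u hu _ m2
      rcases u with ⟨e, h2⟩ | ⟨e, e'⟩
      · simp only [adj_PP, adj_PW] at k1 k2
        exact ⟨k2.1, hac, k1.2.1⟩
      · simp only [adj_WP, adj_WW] at k1 k2
        exact absurd (k1.1.trans k2.1).symm hbc
    · rintro _ (hx | ⟨h1, v, hv, rfl⟩) k1 k2 k3
      · exact hx
      · have m4 : (Sum.inl (b, h1) : VV ι) ∈ B := by
          have := k2 (a := .inl (b, h1)) (by simp)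
          simpa using this
        refine (hAB.2 ({.inl (a, none)}, {.inl (b, h1), .inl (c, h)})
          (Or.inr ⟨h1, _, Or.inl ⟨h, rfl⟩, rfl⟩)).1 ⟨by simpa using m3, ?_⟩
        intro x hx
        simp only [Finset.coe_insert, Finset.coe_singleton, Set.mem_insert_iff,
          Set.mem_singleton_iff] at hx
        rcases hx with rfl | rfl
        · exact m4
        · exact m1
    · rintro _ (hx | ⟨h1, v, hv, rfl⟩) k1 k2 k3
      · exact hx
      · simp at k3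

lemma step3 : ZS (XX (KK H R) ((∅ ∪ Φ1 a b c ι) ∪ Φ2 a b c ι))
    (XX (KK H R) (((∅ ∪ Φ1 a b c ι) ∪ Φ2 a b c ι) ∪ Φ3 a ι)) := by
  refine batch ?_
  rintro _ ⟨e, h, he, rfl⟩
  refine ⟨by simp, .inr (e, a), ?_, ?_⟩
  · rintro _ ⟨e1, h1, he1, rfl⟩
    simp
  · intro A B hAB hS hT
    have m1 : (Sum.inl (e, h) : VV ι) ∈ A := hS (by simp)
    have m3 : (Sum.inl (a, none) : VV ι) ∈ B := hT (by simp)
    have f1 : ∀ (h1 : Option ι) (v : VV ι), ((∃ h', v = .inl (c, h')) ∨ v = .inr (a, c)) →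
        (Sum.inl (b, h1) : VV ι) ∈ A → v ∈ A → False := by
      intro h1 v hv k1 k2
      refine (hAB.2 ({.inl (a, none)}, {.inl (b, h1), v})
        (Or.inl (Or.inr ⟨h1, v, hv, rfl⟩))).2 ⟨by simpa using m3, ?_⟩
      intro x hx
      simp only [Finset.coe_insert, Finset.coe_singleton, Set.mem_insert_iff,
        Set.mem_singleton_iff] at hx
      rcases hx with rfl | rfl
      · exact k1
      · exact k2
    have f2 : ∀ (h1 : Option ι), (Sum.inl (c, h1) : VV ι) ∈ A → (Sum.inr (a, b) : VV ι) ∈ A →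
        False := by
      intro h1 k1 k2
      refine (hAB.2 ({.inl (a, none)}, {.inl (c, h1), .inr (a, b)})
        (Or.inr ⟨h1, rfl⟩)).2 ⟨by simpa using m3, ?_⟩
      intro x hx
      simp only [Finset.coe_insert, Finset.coe_singleton, Set.mem_insert_iff,
        Set.mem_singleton_iff] at hx
      rcases hx with rfl | rfl
      · exact k1
      · exact k2
    have heb : e = b ∨ e = c := (hall e).resolve_left he
    refine cell_insert hAB ?_ ?_ ?_
    · intro u hu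
      have k1 := hAB.1 u hu _ m3
      rcases u with ⟨e1, h2⟩ | ⟨e1, e2⟩
      · simp only [adj_PP] at k1
        refine ⟨?_, he, k1.2.1⟩
        have he1 : e1 = b ∨ e1 = c := (hall e1).resolve_left k1.1
        rcases heb with rfl | rfl <;> rcases he1 with rfl | rfl
        · rfl
        · exact (f1 h _ (Or.inl ⟨h2, rfl⟩) m1 hu).elim
        · exact (f1 h2 _ (Or.inl ⟨h, rfl⟩) hu m1).elim
        · rfl
      · simp only [adj_WP] at k1
        obtain ⟨rfl, k2, -⟩ := k1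
        refine ⟨rfl, ?_, k2⟩
        have he2 : e2 = b ∨ e2 = c := (hall e2).resolve_left (Ne.symm k2)
        rcases heb with rfl | rfl <;> rcases he2 with rfl | rfl
        · rfl
        · exact (f1 h _ (Or.inr rfl) m1 hu).elim
        · exact (f2 h m1 hu).elim
        · rfl
    · rintro _ ((hx | ⟨h1, v, hv, rfl⟩) | ⟨h1, rfl⟩) k1 k2 k3
      · exact hx
      · exact (KK H R).loopless.irrefl _ (hAB.1 _ (k1 (by simp)) _ m3)
      · exact (KK H R).loopless.irrefl _ (hAB.1 _ (k1 (by simp)) _ m3)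
    · rintro _ ((hx | ⟨h1, v, hv, rfl⟩) | ⟨h1, rfl⟩) k1 k2 k3
      · exact hx
      · simp at k3
      · simp at k3

lemma step4 (h0 : ι) : ZS (XX (KK H R) (((∅ ∪ Φ1 a b c ι) ∪ Φ2 a b c ι) ∪ Φ3 a ι))
    (XX (KK H R) ((((∅ ∪ Φ1 a b c ι) ∪ Φ2 a b c ι) ∪ Φ3 a ι) ∪ Φ4 a ι)) := by
  refine batch ?_
  rintro _ rfl
  refine ⟨by simp, .inl (a, some h0), ?_, ?_⟩
  · rintro _ rfl
    simp
  · intro A B hAB hS hT
    have m3 : (Sum.inl (a, none) : VV ι) ∈ B := hT (by simp)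
    refine cell_insert hAB ?_ ?_ ?_
    · intro u hu
      have k1 := hAB.1 u hu _ m3
      rcases u with ⟨e1, h2⟩ | ⟨e1, e2⟩
      · simp only [adj_PP] at k1
        exact ((hAB.2 ({.inl (e1, h2)}, {.inl (a, none)}) (Or.inr ⟨e1, h2, k1.1, rfl⟩)).1
          ⟨by simpa using hu, by simpa using m3⟩).elim
      · simp only [adj_WP] at k1
        exact ⟨k1.1, k1.2.1, by simp [pres]⟩
    · rintro _ (((hx | ⟨h1, v, hv, rfl⟩) | ⟨h1, rfl⟩) | ⟨e, h1, he, rfl⟩) k1 k2 k3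
      · exact hx
      · exact (KK H R).loopless.irrefl _ (hAB.1 _ (k1 (by simp)) _ m3)
      · exact (KK H R).loopless.irrefl _ (hAB.1 _ (k1 (by simp)) _ m3)
      · simp at k3
    · rintro _ (((hx | ⟨h1, v, hv, rfl⟩) | ⟨h1, rfl⟩) | ⟨e, h1, he, rfl⟩) k1 k2 k3
      · exact hx
      · simp at k3
      · simp at k3
      · simp at k3
        exact he k3.1.symm

end remove

lemma exists_ne_zero {V : Type} [Fintype V] {x : V → ℝ} (hx : x ∈ stdSimplex ℝ V) :
    ∃ v, x v ≠ 0 := by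
  by_contra h
  push Not at h
  have := hx.2
  simp [h] at this

lemma adj_mono (H : SimpleGraph ι) {R R' : Set (Fin 3)} (hR : R ⊆ R') {u v : VV ι}
    (k : (KK H R).Adj u v) : (KK H R').Adj u v := by
  rcases u with ⟨a, h⟩ | ⟨a, b⟩ <;> rcases v with ⟨a', h'⟩ | ⟨a', b'⟩
  · exact ⟨k.1, fun e => hR (k.2.1 e), fun e => hR (k.2.2.1 e), k.2.2.2⟩
  · exact ⟨k.1, k.2.1, fun e => hR (k.2.2 e)⟩
  · exact ⟨k.1, k.2.1, fun e => hR (k.2.2 e)⟩
  · exact k

lemma adj_of_ne (H : SimpleGraph ι) {R : Set (Fin 3)} {a : Fin 3} {u v : VV ι}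
    (k : (KK H (insert a R)).Adj u v) (hu : u ≠ .inl (a, none)) (hv : v ≠ .inl (a, none)) :
    (KK H R).Adj u v := by
  have key : ∀ (e : Fin 3) (h : Option ι), (Sum.inl (e, h) : VV ι) ≠ .inl (a, none) →
      pres (insert a R) e h → pres R e h := by
    intro e h hne hp hn
    rcases hp hn with rfl | h'
    · exact absurd (by rw [hn]) hne
    · exact h'
  rcases u with ⟨e, h⟩ | ⟨e, b⟩ <;> rcases v with ⟨e', h'⟩ | ⟨e', b'⟩
  · exact ⟨k.1, key _ _ hu k.2.1, key _ _ hv k.2.2.1, k.2.2.2⟩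
  · exact ⟨k.1, k.2.1, key _ _ hu k.2.2⟩
  · exact ⟨k.1, k.2.1, key _ _ hv k.2.2⟩
  · exact k

lemma star_isolated (H : SimpleGraph ι) {R : Set (Fin 3)} {a : Fin 3} (ha : a ∉ R) (v : VV ι) :
    ¬ (KK H R).Adj (.inl (a, none)) v := by
  intro k
  rcases v with ⟨e', h'⟩ | ⟨e', b'⟩
  · exact ha (k.2.1 rfl)
  · exact ha (k.2.2 rfl)

lemma remove_star (H : SimpleGraph ι) (h0 : ι) (R : Set (Fin 3)) {a b c : Fin 3} (hab : a ≠ b)
    (hac : a ≠ c) (hbc : b ≠ c) (hall : ∀ e, e = a ∨ e = b ∨ e = c) (ha : a ∉ R) :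
    ZS (XX (KK H (insert a R)) ∅) (XX (KK H R) ∅) := by
  have k := (((step1 H (insert a R) hab hac hbc hall).trans
    (step2 H (insert a R) hab hac hbc hall)).trans (step3 H (insert a R) hab hac hbc hall)).trans
    (step4 H (insert a R) hab hac hbc hall h0)
  have e : XX (KK H (insert a R)) ((((∅ ∪ Φ1 a b c ι) ∪ Φ2 a b c ι) ∪ Φ3 a ι) ∪ Φ4 a ι) =
      XX (KK H R) ∅ := by
    ext p
    constructor
    · rintro ⟨h1, h2, h3⟩
      have k4 := h3.2 (∅, {(Sum.inl (a, none) : VV ι)}) (Or.inr (rfl : _ = _))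
      refine ⟨h1, h2, fun u hu v hv => adj_of_ne H (h3.1 u hu v hv) ?_ ?_, by simp⟩
      · rintro rfl
        exact k4.2 ⟨by simp, by simpa using hu⟩
      · rintro rfl
        exact k4.1 ⟨by simp, by simpa using hv⟩
    · rintro ⟨h1, h2, h3⟩
      obtain ⟨u, hu⟩ := exists_ne_zero h1
      obtain ⟨v, hv⟩ := exists_ne_zero h2
      have n1 : (Sum.inl (a, none) : VV ι) ∉ Function.support p.1 := fun k =>
        star_isolated H ha v (h3.1 _ k v hv)
      have n2 : (Sum.inl (a, none) : VV ι) ∉ Function.support p.2 := fun k =>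
        star_isolated H ha u (h3.1 u hu _ k).symm
      refine ⟨h1, h2, fun u hu v hv => adj_mono H (Set.subset_insert _ _) (h3.1 u hu v hv), ?_⟩
      rintro _ ((((hx | ⟨h1, v, hv, rfl⟩) | ⟨h1, rfl⟩) | ⟨e, h1, he, rfl⟩) | rfl)
      · exact hx.elim
      · exact ⟨fun k => n1 (k.1 (by simp)), fun k => n2 (k.1 (by simp))⟩
      · exact ⟨fun k => n1 (k.1 (by simp)), fun k => n2 (k.1 (by simp))⟩
      · exact ⟨fun k => n2 (k.2 (by simp)), fun k => n1 (k.2 (by simp))⟩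
      · exact ⟨fun k => n2 (k.2 (by simp)), fun k => n1 (k.2 (by simp))⟩
  rwa [e] at k

def Φ5 (ι : Type) : Set (Finset (VV ι) × Finset (VV ι)) :=
  {x | ∃ u : VV ι, (∀ a, u ≠ .inl (a, none)) ∧ x = (∅, {u})}

lemma fold_all (H : SimpleGraph ι) :
    ZS (XX (KK H Set.univ) ∅) (XX (KK H Set.univ) (∅ ∪ Φ5 ι)) := by
  refine batch ?_
  rintro _ ⟨u, hu, rfl⟩
  have key : ∃ a : Fin 3, ∀ v, (KK H Set.univ).Adj v u → (KK H Set.univ).Adj v (.inl (a, none)) := by
    rcases u with ⟨a, h⟩ | ⟨a, b⟩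
    · refine ⟨a, ?_⟩
      rintro (⟨e, h'⟩ | ⟨e, e'⟩) k
      · exact ⟨k.1, k.2.1, by simp [pres], by simp⟩
      · exact ⟨k.1, k.2.1, by simp [pres]⟩
    · refine ⟨b, ?_⟩
      rintro (⟨e, h'⟩ | ⟨e, e'⟩) k
      · exact ⟨by rw [k.1]; exact k.2.1, k.2.2, by simp [pres], by simp⟩
      · exact ⟨k.1.symm, k.2.2, by simp [pres]⟩
  obtain ⟨a, ha⟩ := key
  refine ⟨by simp, .inl (a, none), ?_, ?_⟩
  · rintro _ ⟨u', hu', rfl⟩
    simpa using (hu' a).symm
  · intro A B hAB _ hT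
    exact cell_insert hAB (fun v hv => ha v (hAB.1 v hv u (hT (by simp)))) (by simp) (by simp)

lemma chain (H : SimpleGraph ι) (h0 : ι) :
    ZS (XX (KK H ∅) ∅) (XX (KK H Set.univ) (∅ ∪ Φ5 ι)) := by
  have k0 := remove_star H h0 ∅ (a := 0) (b := 1) (c := 2) (by decide) (by decide) (by decide)
    (by decide) (by simp)
  have k1 := remove_star H h0 (insert 0 ∅) (a := 1) (b := 0) (c := 2) (by decide) (by decide)
    (by decide) (by decide) (by simp)
  have k2 := remove_star H h0 (insert 1 (insert 0 ∅)) (a := 2) (b := 0) (c := 1) (by decide)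
    (by decide) (by decide) (by decide) (by simp)
  have e : (insert 2 (insert 1 (insert 0 ∅)) : Set (Fin 3)) = Set.univ := by
    ext x; fin_cases x <;> simp
  rw [e] at k2
  exact ((k0.symm.trans k1.symm).trans k2.symm).trans (fold_all H)

end Pool.Agent.H17Z.Box
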