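import Pool.Agent.H17Z.Box.Circle

set_option autoImplicit false
set_option linter.unusedSectionVars false

namespace Pool.Agent.H17Z.Box

section general
variable {ι : Type} [Fintype ι] [DecidableEq ι]

def col : VV ι → Fin 3
  | .inl (a, _) => a
  | .inr (_, b) => b

lemma col_ne (H : SimpleGraph ι) (R : Set (Fin 3)) {u v : VV ι} (k : (KK H R).Adj u v) :
    col u ≠ col v := by
  rcases u with ⟨a, h⟩ | ⟨a, b⟩ <;> rcases v with ⟨a', h'⟩ | ⟨a', b'⟩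
  · exact k.1
  · obtain ⟨rfl, k, -⟩ := k; exact k
  · obtain ⟨rfl, k, -⟩ := k; exact Ne.symm k
  · obtain ⟨rfl, rfl, k⟩ := k; exact Ne.symm k

lemma no_triangle (H : SimpleGraph ι) (hH : ∀ a b c, H.Adj a b → H.Adj b c → H.Adj a c → False)
    (u v w : VV ι) (k1 : (KK H ∅).Adj u v) (k2 : (KK H ∅).Adj v w) (k3 : (KK H ∅).Adj u w) :
    False := by
  rcases u with ⟨a, h⟩ | ⟨a, b⟩ <;> rcases v with ⟨a', h'⟩ | ⟨a', b'⟩ <;>
    rcases w with ⟨a'', h''⟩ | ⟨a'', b''⟩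
  · rcases h with _ | h
    · exact k1.2.1 rfl
    rcases h' with _ | h'
    · exact k1.2.2.1 rfl
    rcases h'' with _ | h''
    · exact k2.2.2.1 rfl
    exact hH h h' h'' k1.2.2.2 k2.2.2.2 k3.2.2.2
  · exact k1.1 (k3.1.trans k2.1.symm)
  · exact k3.1 (k1.1.trans k2.1.symm)
  · simp only [adj_PW, adj_WW] at k1 k2 k3; omega
  · exact k2.1 (k1.1.trans k3.1.symm)
  · simp only [adj_PW, adj_WW, adj_WP] at k1 k2 k3; omega
  · simp only [adj_PW, adj_WW, adj_WP] at k1 k2 k3; omega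
  · simp only [adj_PW, adj_WW, adj_WP] at k1 k2 k3; omega

lemma not_mult (H : SimpleGraph ι) (hH : ∀ a b c, H.Adj a b → H.Adj b c → H.Adj a c → False)
    (hc : ∀ c : ι → Fin 3, ¬ ∀ a b, H.Adj a b → c a ≠ c b) : ¬ Multiplicative (KK H ∅) := by
  intro hm
  have hom : Nonempty (tensor (⊤ : SimpleGraph (Fin 3)) H →g KK H ∅) :=
    ⟨⟨fun p => .inl (p.1, some p.2), fun {p q} k => ⟨k.1, by simp [pres], by simp [pres], k.2⟩⟩⟩
  rcases hm (Fin 3) ι ⊤ H hom with ⟨⟨f⟩⟩ | ⟨⟨f⟩⟩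
  · exact no_triangle H hH (f 0) (f 1) (f 2) (f.map_rel (by decide)) (f.map_rel (by decide))
      (f.map_rel (by decide))
  · exact hc (fun a => col (f a)) (fun a b k => col_ne H ∅ (f.map_rel k))

end general

def gE : List (Fin 11 × Fin 11) :=
  [(0,1),(1,2),(2,3),(3,4),(4,0),(5,1),(5,4),(6,0),(6,2),(7,1),(7,3),(8,2),(8,4),(9,3),(9,0),
   (10,5),(10,6),(10,7),(10,8),(10,9)]

/-- the Groetzsch graph -/
def groe : SimpleGraph (Fin 11) where
  Adj a b := (a, b) ∈ gE ∨ (b, a) ∈ gE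
  symm := ⟨fun _ _ h => h.symm⟩
  loopless := ⟨by decide⟩

instance : DecidableRel groe.Adj := fun a b => inferInstanceAs (Decidable ((a, b) ∈ gE ∨ (b, a) ∈ gE))

lemma groe_tri : ∀ a b c, groe.Adj a b → groe.Adj b c → groe.Adj a c → False := by
  decide +kernel

set_option synthInstance.maxSize 4096 in
lemma key3 : ∀ a b c d e z : Fin 3, a ≠ b → b ≠ c → c ≠ d → d ≠ e → e ≠ a →
    (∃ u, u ≠ b ∧ u ≠ e ∧ z ≠ u) → (∃ u, u ≠ a ∧ u ≠ c ∧ z ≠ u) → (∃ u, u ≠ b ∧ u ≠ d ∧ z ≠ u) →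
    (∃ u, u ≠ c ∧ u ≠ e ∧ z ≠ u) → (∃ u, u ≠ d ∧ u ≠ a ∧ z ≠ u) → False := by
  decide +kernel

lemma groe_col (c : Fin 11 → Fin 3) : ¬ ∀ a b, groe.Adj a b → c a ≠ c b := by
  intro h
  exact key3 (c 0) (c 1) (c 2) (c 3) (c 4) (c 10) (h _ _ (by decide)) (h _ _ (by decide))
    (h _ _ (by decide)) (h _ _ (by decide)) (h _ _ (by decide))
    ⟨c 5, h _ _ (by decide), h _ _ (by decide), h _ _ (by decide)⟩
    ⟨c 6, h _ _ (by decide), h _ _ (by decide), h _ _ (by decide)⟩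
    ⟨c 7, h _ _ (by decide), h _ _ (by decide), h _ _ (by decide)⟩
    ⟨c 8, h _ _ (by decide), h _ _ (by decide), h _ _ (by decide)⟩
    ⟨c 9, h _ _ (by decide), h _ _ (by decide), h _ _ (by decide)⟩

theorem main : ∃ (V : Type) (_ : Fintype V) (K : SimpleGraph V),
    Z2HomotopyEquivalent (boxSwap K) (fun w : Metric.sphere (0 : ℂ) 1 => -w) ∧
      ¬ Multiplicative K :=
  ⟨VV (Fin 11), inferInstance, KK groe ∅, box_circle groe 0, not_mult groe groe_tri groe_col⟩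

end Pool.Agent.H17Z.Box
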